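import Pool.Agent.H75.S6C.Ufr

/-!
# The double plateau, class half: the frames

One plank of the window `wl` and one slope label of this window: all of `(a, s, t)` are functions
of the line and of the window `wl`, and of the exact point; the own slopes at the exact points.
-/

set_option autoImplicit false

namespace Pool.DPC20

open Finset Real
open Pool.Agent.H49.Ent Pool.Agent.H32.Dense Pool.STK Pool.KA Pool.KSAT Pool.K2S Pool.PB Pool.KS6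
  Pool.S6C Pool.UST

/-- Pigeonhole. -/
theorem pig {Ω V : Type} [Fintype Ω] {p : Ω → ℝ} (hp : IsLaw p) {A : Ω → Prop} (f : Ω → V)
    (S : Finset V) (hS : S.Nonempty) (h : ∀ ω, A ω → f ω ∈ S) :
    ∃ v ∈ S, Pe p A ≤ S.card * Pe p (fun ω => A ω ∧ f ω = v) := by
  classical
  have h1 : Pe p A ≤ ∑ v ∈ S, Pe p (fun ω => A ω ∧ f ω = v) := by
    simp_rw [Pe_eq]
    rw [Finset.sum_comm]
    refine Finset.sum_le_sum fun ω _ => ?_
    by_cases hA : A ω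
    · rw [if_pos hA]
      have h2 := Finset.single_le_sum (f := fun v => if A ω ∧ f ω = v then p ω else 0)
        (fun v _ => by
          split_ifs
          exacts [hp.nonneg ω, le_rfl]) (h ω hA)
      simpa [hA] using h2
    · rw [if_neg hA]
      exact Finset.sum_nonneg fun v _ => by
        split_ifs
        exacts [hp.nonneg ω, le_rfl]
  by_contra hcon
  push Not at hcon
  have hc : (0 : ℝ) < S.card := by exact_mod_cast hS.card_pos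
  have h2 : ∑ v ∈ S, Pe p (fun ω => A ω ∧ f ω = v) < ∑ _v ∈ S, Pe p A / S.card := by
    refine Finset.sum_lt_sum_of_nonempty hS fun v hv => ?_
    rw [lt_div_iff₀ hc, mul_comm]
    exact hcon v hv
  rw [Finset.sum_const, nsmul_eq_mul, mul_div_cancel₀ _ hc.ne'] at h2
  linarith

/-- The frames of one plank. -/
structure Frm {J : ℕ} (F : Fam 3 J) (B : F.Ω → Prop) (sg : Fin 3 → Fin 3) (wl V kap Hu HN : ℕ)
    (al nu kk bb : (Fin 3 → ℤ) × (ℕ × F.ζ) → ℝ) (a s t : F.Ω → ℝ) : Prop where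
  bij : Function.Bijective sg
  /-- the frame is a function of the line and of the window, and of the exact point -/
  det : Det F.p (slam F wl) (fun ω => (a ω, s ω, t ω))
  vdt : ∀ ω ω', B ω → B ω' → Fam.pt F ω = Fam.pt F ω' → a ω = a ω' ∧ s ω = s ω' ∧ t ω = t ω'
  bd : ∀ ω, B ω → |a ω| ≤ 8 ∧ |s ω| ≤ 4 ∧ |t ω| ≤ 4
  /-- the velocities at the exact points -/
  on1 : ∀ ω, B ω → |F.d ω (sg 1) - al (Fam.pt F ω) * F.d ω (sg 0) - nu (Fam.pt F ω)| ≤ 4 / 2 ^ Hu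
  on2 : ∀ ω, B ω → |F.d ω (sg 2) - s ω * F.d ω (sg 1) - t ω * F.d ω (sg 0) - bb (Fam.pt F ω) -
    kk (Fam.pt F ω) * F.d ω (sg 0)| ≤ 4 / 2 ^ HN
  an1 : ∀ ω, B ω → |al (Fam.pt F ω) - a ω| ≤ 3 / 2 ^ V
  an2 : ∀ ω, B ω → |kk (Fam.pt F ω)| ≤ 1 / 2 ^ kap

theorem Frm.sub {J : ℕ} {F : Fam 3 J} {B B' : F.Ω → Prop} {sg : Fin 3 → Fin 3}
    {wl V kap Hu HN : ℕ} {al nu kk bb : (Fin 3 → ℤ) × (ℕ × F.ζ) → ℝ} {a s t : F.Ω → ℝ}
    (h : Frm F B sg wl V kap Hu HN al nu kk bb a s t) (hB : Sub B' B) :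
    Frm F B' sg wl V kap Hu HN al nu kk bb a s t :=
  ⟨h.bij, h.det, fun ω ω' a b => h.vdt ω ω' (hB ω a) (hB ω' b), fun ω a => h.bd ω (hB ω a),
    fun ω a => h.on1 ω (hB ω a), fun ω a => h.on2 ω (hB ω a), fun ω a => h.an1 ω (hB ω a),
    fun ω a => h.an2 ω (hB ω a)⟩

/-- The frame is visible on a subevent. -/
theorem frm_of {J : ℕ} {F : Fam 3 J} {A : F.Ω → Prop} {sg : Fin 3 → Fin 3} {wl : ℕ}
    {vp : ℕ → ℕ} {kap Hu HN : ℕ} {al nu k b : (Fin 3 → ℤ) × (ℕ × F.ζ) → ℝ} {a : ℕ → F.Ω → ℝ}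
    {s t : F.Ω → ℝ} (h : UFr F A sg wl wl wl vp kap Hu HN al nu k b a s t 4 1) :
    ∃ B : F.Ω → Prop, Sub B A ∧ Pe F.p A ≤ 9 * Pe F.p B ∧
      Frm F B sg wl (vp wl) kap Hu HN al nu k b (a wl) s t := by
  classical
  choose n hn using h.int wl le_rfl le_rfl
  have hmem : ∀ ω, A ω → n ω - ⌊(2 : ℝ) ^ vp wl * al (Fam.pt F ω)⌋ ∈ Finset.Icc (-4 : ℤ) 4 := by
    intro ω hω
    have e1 := h.near wl le_rfl le_rfl ω hω
    have e2 : (n ω : ℝ) - 2 ^ vp wl * al (Fam.pt F ω) =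
        2 ^ vp wl * (a wl ω - al (Fam.pt F ω)) := by
      have e3 : (n ω : ℝ) = 2 ^ vp wl * a wl ω := by
        rw [hn ω]
        field_simp
      rw [e3]
      ring
    have e4 : |(n ω : ℝ) - 2 ^ vp wl * al (Fam.pt F ω)| ≤ 3 := by
      rw [e2, abs_mul, abs_of_pos (by positivity : (0 : ℝ) < 2 ^ vp wl), abs_sub_comm]
      calc (2 : ℝ) ^ vp wl * |al (Fam.pt F ω) - a wl ω| ≤ 2 ^ vp wl * (3 / 2 ^ vp wl) :=
            mul_le_mul_of_nonneg_left e1 (by positivity)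
        _ = 3 := by field_simp
    have f1 := Int.floor_le ((2 : ℝ) ^ vp wl * al (Fam.pt F ω))
    have f2 := Int.lt_floor_add_one ((2 : ℝ) ^ vp wl * al (Fam.pt F ω))
    have e5 := abs_le.1 e4
    rw [Finset.mem_Icc]
    constructor
    · have : (-4 : ℝ) ≤ (n ω : ℝ) - ⌊(2 : ℝ) ^ vp wl * al (Fam.pt F ω)⌋ := by linarith [e5.1]
      exact_mod_cast this
    · have : (n ω : ℝ) - ⌊(2 : ℝ) ^ vp wl * al (Fam.pt F ω)⌋ ≤ 4 := by linarith [e5.2]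
      exact_mod_cast this
  obtain ⟨k0, -, hk0⟩ := pig F.isLaw (A := A)
    (fun ω => n ω - ⌊(2 : ℝ) ^ vp wl * al (Fam.pt F ω)⌋) (Finset.Icc (-4 : ℤ) 4)
    ⟨0, by simp⟩ hmem
  have hcard : ((Finset.Icc (-4 : ℤ) 4).card : ℝ) = 9 := by
    have : (Finset.Icc (-4 : ℤ) 4).card = 9 := by decide
    rw [this]
    norm_num
  rw [hcard] at hk0
  refine ⟨fun ω => A ω ∧ n ω - ⌊(2 : ℝ) ^ vp wl * al (Fam.pt F ω)⌋ = k0, fun ω hω => hω.1, hk0,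
    h.bij, h.det le_rfl le_rfl, ?_, ?_, fun ω hω => h.on1 ω hω.1, fun ω hω => h.on2 ω hω.1,
    fun ω hω => h.near wl le_rfl le_rfl ω hω.1, fun ω hω => h.kle ω hω.1⟩
  · rintro ω ω' ⟨h1, h2⟩ ⟨h3, h4⟩ e
    obtain ⟨φ, hφ⟩ := h.pts
    have e1 := hφ ω h1
    have e2 := hφ ω' h3
    rw [e, ← e2] at e1
    have e3 : n ω = n ω' := by
      rw [e] at h2
      linarith
    exact ⟨by rw [hn ω, hn ω', e3], (Prod.ext_iff.mp e1).1, (Prod.ext_iff.mp e1).2⟩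
  · rintro ω ⟨h1, -⟩
    have e1 := h.near wl le_rfl le_rfl ω h1
    have e2 := h.bal ω h1
    have e3 := h.bd ω h1
    have e4 : (3 : ℝ) / 2 ^ vp wl ≤ 3 := div_le_self (by norm_num) (one_le_pow₀ (by norm_num))
    refine ⟨?_, e3.1, e3.2⟩
    have e5 : a wl ω = al (Fam.pt F ω) - (al (Fam.pt F ω) - a wl ω) := by ring
    rw [e5]
    refine (abs_sub _ _).trans ?_
    linarith

/-- **The frames of one plank, from the class.** -/
theorem frm_clp {S : PCl 3} {a₁ R h₁ : ℝ} {i₀ : Fin 3} {c s₂ : ℝ} {r : ℝ → ℝ} {D : Set ℝ}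
    {σ : ℝ → Row} (hC : Cs S a₁ R h₁ i₀ c s₂ r D σ) (v₁ : ℚ) (hv1 : v₁ ≤ 1)
    (turn : (σ 1).rot v₁ < (σ 1).pi) {wl v t : ℚ} (hw0 : 0 ≤ wl) (hw : wl ≤ v₁) (hv0 : 0 ≤ v)
    (hv : v ≤ v₁) (ht0 : 0 ≤ t) (ht1 : t ≤ 1) {g' pe κ e T : ℝ} (hg0 : 0 ≤ g')
    (h1 : g' < (σ 1).sN v t) (h2 : g' < t - v + ((σ 1).pi - (σ 1).rot v₁))
    (h3 : g' < T - wl + ((σ 1).pi - (σ 1).rot v₁)) (hpe : pe < (σ 1).pi)
    (hκ0 : 0 ≤ κ) (hκ1 : κ < T - wl) (hκ2 : κ < g') (he : 0 < e) (hT0 : 0 < T)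
    (hT : T < (σ 1).th wl) :
    Clp S (fun J F A => ∃ B : F.Ω → Prop, Sub B A ∧ Pe F.p A ≤ 72 * Pe F.p B ∧
      ∃ (sg : Fin 3 → Fin 3) (al nu kk bb : (Fin 3 → ℤ) × (ℕ × F.ζ) → ℝ) (a s t : F.Ω → ℝ),
        sg 0 = i₀ ∧ Frm F B sg ⌊(wl : ℝ) * J⌋₊ ⌊((σ 1).rot wl - e) * J⌋₊ ⌊κ * J⌋₊ ⌊pe * J⌋₊
          ⌊g' * J⌋₊ al nu kk bb a s t) := by
  have hR1 := hC.row 1 one_pos le_rfl hC.D1
  have c1 := ufr_clp hC v₁ hv1 turn hw0 hw hv0 hv ht0 ht1 hg0 h1 h2 h3 (le_refl (1 : ℝ)) hpe hκ0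
    hκ1 hκ2 he 0 (fun _ => wl) le_rfl (fun i hi => by omega) (hw.trans hv1)
  have c2 := (hR1.th wl hw0 (hw.trans hv1)).1 ((σ 1).th wl - T) (by linarith)
  refine Clp.mono (J₂ := 0) (c1.and c2) ?_
  rintro J - F A ⟨d1, d2⟩
  have eT : (σ 1).th wl - ((σ 1).th wl - T) = T := by ring
  rw [eT] at d2
  rcases d2 with d2 | ⟨-, iu, iN, hi, y, hI, hφ, hψ⟩
  · linarith
  have e1 : ⌊(1 : ℝ) * J⌋₊ = J := by rw [one_mul, Nat.floor_natCast]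
  rw [e1] at hφ
  have hsg : Function.Bijective ![i₀, iu, iN] := by
    rw [← Finite.surjective_iff_bijective]
    intro j
    rcases hi j with h | h | h
    · exact ⟨0, h.symm⟩
    · exact ⟨1, h.symm⟩
    · exact ⟨2, h.symm⟩
  obtain ⟨B, hB, hPB, vp, al, nu, k, b, a, s, t', -, hU, hvp⟩ := d1 A (fun _ h => h)
    (by rw [one_mul]) ![i₀, iu, iN] hsg rfl 0 y hI hφ hψ
  obtain ⟨B', hB', hPB', hF⟩ := frm_of hU
  refine ⟨B', hB'.trans hB, by linarith, ![i₀, iu, iN], al, nu, k, b,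
    a ⌊(wl : ℝ) * J⌋₊, s, t', rfl, ?_⟩
  rw [hvp] at hF
  exact hF

end Pool.DPC20
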