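import Pool.Agent.H62.S6.Adm
import Pool.Agent.H23.S6E.Stmts2
import Pool.Agent.H86.S6C.Trv
import Pool.Agent.H84.DPC.Stmts

/-!
# The double plateau, class half: the frames of a natural label

The frame of the context is the frame of a natural label `z` of the window `u₀`; the own slopes at
the exact points are the exact direction of the fans, relative to the label.
-/

set_option autoImplicit false

namespace Pool.DPC20

open Finset Real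
open Pool.Agent.H49.Ent Pool.Agent.H32.Dense Pool.STK Pool.KA Pool.KSAT Pool.K2S Pool.PB Pool.KS6
  Pool.S6C Pool.S6F

/-- The frames of one plank. -/
structure Frn {J : ℕ} (F : Fam 3 J) (A : F.Ω → Prop) (sg : Fin 3 → Fin 3) (wl V kap Hu HN : ℕ)
    (al nu kk bb : (Fin 3 → ℤ) × (ℕ × F.ζ) → ℝ) (a s t : F.Ω → ℝ) : Prop where
  bij : Function.Bijective sg
  /-- the frame is a function of the line and of the window, and of the exact point -/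
  det : ∀ ω ω', slam F wl ω = slam F wl ω' → a ω = a ω' ∧ s ω = s ω' ∧ t ω = t ω'
  vdt : ∀ ω ω', A ω → A ω' → Fam.pt F ω = Fam.pt F ω' → a ω = a ω' ∧ s ω = s ω' ∧ t ω = t ω'
  bd : ∀ ω, A ω → |a ω| ≤ 2 ∧ |s ω| ≤ 4 ∧ |t ω| ≤ 4
  /-- the velocities at the exact points -/
  on1 : ∀ ω, A ω → |F.d ω (sg 1) - al (Fam.pt F ω) * F.d ω (sg 0) - nu (Fam.pt F ω)| ≤ 1 / 2 ^ Hu
  on2 : ∀ ω, A ω → |F.d ω (sg 2) - s ω * F.d ω (sg 1) - t ω * F.d ω (sg 0) - bb (Fam.pt F ω) -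
    kk (Fam.pt F ω) * F.d ω (sg 0)| ≤ 1 / 2 ^ HN
  an1 : ∀ ω, A ω → |al (Fam.pt F ω) - a ω| ≤ 4 / 2 ^ V
  an2 : ∀ ω, A ω → |kk (Fam.pt F ω)| ≤ 1 / 2 ^ kap
  be : ∀ ω, A ω → |al (Fam.pt F ω)| ≤ 5 / 4 ∧
    |s ω * al (Fam.pt F ω) + (kk (Fam.pt F ω) + t ω)| ≤ 5 / 4
  on3 : ∃ nN : (Fin 3 → ℤ) × (ℕ × F.ζ) → ℝ, ∀ ω, A ω →
    |F.d ω (sg 2) - (s ω * al (Fam.pt F ω) + (kk (Fam.pt F ω) + t ω)) * F.d ω (sg 0) -
      nN (Fam.pt F ω)| ≤ 1 / 2 ^ Hu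

theorem perm_of {i₀ iu iN : Fin 3} (hi : ∀ j : Fin 3, j = i₀ ∨ j = iu ∨ j = iN) :
    Function.Bijective ![i₀, iu, iN] := by
  rw [← Finite.surjective_iff_bijective]
  intro j
  rcases hi j with h | h | h
  · exact ⟨0, h.symm⟩
  · exact ⟨1, h.symm⟩
  · exact ⟨2, h.symm⟩

/-- **The frames of a natural label.** -/
theorem frn_of {J : ℕ} {F : Fam 3 J} {A : F.Ω → Prop} {i₀ iu iN : Fin 3} {N Pu : ℕ}
    {w V T H : ℕ → ℕ} {e n : (Fin 3 → ℤ) × (ℕ × F.ζ) → Fin 3 → ℝ} {z : ℕ → F.Ω → Pln}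
    (h : NLc F A i₀ iu iN N Pu w V T H e n z) {j G : ℕ} (hj : j ≤ N) (hwT : w j ≤ T j)
    (hG : SnG F A i₀ iu iN G e (z j)) :
    ∃ (kk bb : (Fin 3 → ℤ) × (ℕ × F.ζ) → ℝ), Frn F A ![i₀, iu, iN] (w j) (V j) (T j - w j) Pu G
      (fun u => e u iu) (fun u => n u iu) kk bb (fra (z j)) (frs (z j)) (frt (z j)) := by
  obtain ⟨φ, hφ⟩ := h.zp j hj
  obtain ⟨ψ, hψ⟩ := h.zs j hj
  obtain ⟨b, hb⟩ := hG
  have hφ' : ∀ ω, A ω → z j ω = φ (Fam.pt F ω) := hφ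
  have key : ∀ ω, A ω → frs (z j) ω * e (Fam.pt F ω) iu +
      (((φ (Fam.pt F ω)).c + (φ (Fam.pt F ω)).s * e (Fam.pt F ω) iu + e (Fam.pt F ω) iN) +
        frt (z j) ω) = e (Fam.pt F ω) iN := by
    intro ω hω
    rw [← hφ' ω hω]
    unfold frs frt
    ring
  refine ⟨fun u => (φ u).c + (φ u).s * e u iu + e u iN, b, perm_of h.hi, ?_, ?_, ?_, ?_, ?_, ?_,
    ?_, ?_, ?_⟩
  · intro ω ω' hs
    have e1 : z j ω = z j ω' := by rw [hψ ω, hψ ω', hs]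
    unfold fra frs frt
    rw [e1]
    exact ⟨rfl, rfl, rfl⟩
  · intro ω ω' hω hω' hs
    have e1 : z j ω = z j ω' := by rw [hφ' ω hω, hφ' ω' hω', hs]
    unfold fra frs frt
    rw [e1]
    exact ⟨rfl, rfl, rfl⟩
  · intro ω hω
    have I := h.inc j hj ω hω
    refine ⟨I.e_le, ?_, ?_⟩
    · show |-(z j ω).s| ≤ 4
      rw [abs_neg]
      exact I.s_le
    · show |-(z j ω).c| ≤ 4
      rw [abs_neg]
      exact I.c_le
  · intro ω hω
    exact h.ln ω hω iu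
  · intro ω hω
    have h1 := hb ω hω
    show |F.d ω iN - frs (z j) ω * F.d ω iu - frt (z j) ω * F.d ω i₀ - b (Fam.pt F ω) -
      ((φ (Fam.pt F ω)).c + (φ (Fam.pt F ω)).s * e (Fam.pt F ω) iu + e (Fam.pt F ω) iN) *
        F.d ω i₀| ≤ 1 / 2 ^ G
    rw [← hφ' ω hω]
    refine le_trans (le_of_eq ?_) h1
    congr 1
    unfold frs frt
    ring
  · intro ω hω
    have h1 := h.ze j hj ω hω
    show |e (Fam.pt F ω) iu - (z j ω).e| ≤ 4 / 2 ^ V j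
    rw [abs_sub_comm]
    exact h1
  · intro ω hω
    have h1 := h.zc j hj ω hω
    show |(φ (Fam.pt F ω)).c + (φ (Fam.pt F ω)).s * e (Fam.pt F ω) iu + e (Fam.pt F ω) iN| ≤
      1 / 2 ^ (T j - w j)
    rw [← hφ' ω hω]
    refine h1.trans (le_of_eq ?_)
    have e1 : (2 : ℝ) ^ T j = 2 ^ (T j - w j) * 2 ^ w j := by
      rw [← pow_add]
      congr 1
      omega
    rw [e1]
    field_simp
  · intro ω hω
    refine ⟨h.eb ω hω iu, ?_⟩
    have h1 := h.eb ω hω iN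
    have h2 := key ω hω
    beta_reduce
    rw [h2]
    exact h1
  · refine ⟨fun u => n u iN, fun ω hω => ?_⟩
    have h1 := h.ln ω hω iN
    have h2 := key ω hω
    beta_reduce
    rw [h2]
    exact h1

/-- The labels are natural labels. -/
theorem nl_of {J : ℕ} {F : Fam 3 J} {A : F.Ω → Prop} {i₀ iu iN : Fin 3} {N Pu : ℕ}
    {w V T H : ℕ → ℕ} {e n : (Fin 3 → ℤ) × (ℕ × F.ζ) → Fin 3 → ℝ} {z : ℕ → F.Ω → Pln}
    (h : NLc F A i₀ iu iN N Pu w V T H e n z) {j : ℕ} (hj : j ≤ N) :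
    NL F A ![i₀, iu, iN] (w j) (V j) (T j) (z j) := by
  refine ⟨fun ω hω => h.inc j hj ω hω, fun ω ω' hω hω' hp => ?_, fun ω ω' _ _ hs => ?_⟩
  · obtain ⟨φ, hφ⟩ := h.zp j hj
    rw [hφ ω hω, hφ ω' hω']
    exact congrArg φ hp
  · obtain ⟨ψ, hψ⟩ := h.zs j hj
    rw [hψ ω, hψ ω', hs]

/-- **The frames of a natural label, from the class.** -/
theorem frn_cls {S : PCl 3} {a R h₁ : ℝ} {i₀ : Fin 3} {c s₂ : ℝ} {r : ℝ → ℝ} {D : Set ℝ}
    {σ : ℝ → Row} (hC : Cs S a R h₁ i₀ c s₂ r D σ) {K : Set ℝ} {W : ℝ → ℝ} {v₁ t : ℚ} {e₁ : ℝ}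
    (hA : Adm σ K W v₁ t e₁) (u : ℚ) (V T G : ℝ) {g : ℝ} (hu0 : 0 ≤ u) (hu1 : u ≤ v₁)
    (hg : g < (σ 1).pi) (hV : V < (σ 1).rot u) (hT : T < (σ 1).th u) (hVT : u + V ≤ T)
    (huT : (u : ℝ) < T) (hG0 : 0 ≤ G) (hG1 : G < (σ 1).sN v₁ t) (hG2 : G < T - u + 7 * e₁) :
    Clp S (fun J F A => ∃ (sg : Fin 3 → Fin 3) (z : F.Ω → Pln), sg 0 = i₀ ∧
      NL F A sg ⌊(u : ℝ) * J⌋₊ ⌊V * J⌋₊ ⌊T * J⌋₊ z ∧
      ∃ (al nu kk bb : (Fin 3 → ℤ) × (ℕ × F.ζ) → ℝ),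
        Frn F A sg ⌊(u : ℝ) * J⌋₊ ⌊V * J⌋₊ (⌊T * J⌋₊ - ⌊(u : ℝ) * J⌋₊) ⌊g * J⌋₊
          ⌊G * J⌋₊ al nu kk bb (fra z) (frs z) (frt z)) := by
  have key := nl_adm hC hA 0 (fun _ => u) (fun _ => V) (fun _ => T) (fun _ => 0) (fun _ => G)
    (fun j hj => by omega) (fun _ _ => hu0) (fun _ _ => hu1) hg (fun _ _ => hV) (fun _ _ => hT)
    (fun _ _ => hVT) (fun _ _ => huT) (fun j hj => by omega) (fun j hj => by omega)
    (fun j hj => by omega) (fun _ _ => hG0) (fun _ _ => hG1) (fun _ _ => hG2)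
  refine Clp.mono (J₂ := 0) key ?_
  rintro J - F A ⟨iu, iN, e, n, z, h1, h2⟩
  have hJ0 : (0 : ℝ) ≤ J := Nat.cast_nonneg J
  have hwT : ⌊(u : ℝ) * J⌋₊ ≤ ⌊T * J⌋₊ :=
    Nat.floor_le_floor (mul_le_mul_of_nonneg_right huT.le hJ0)
  obtain ⟨kk, bb, h3⟩ := frn_of h1 (j := 0) le_rfl hwT (h2 0 le_rfl)
  exact ⟨![i₀, iu, iN], z 0, rfl, nl_of h1 le_rfl, _, _, kk, bb, h3⟩

theorem le_div_pow {x B : ℝ} (hB : 0 ≤ B) {m n : ℕ} {c : ℝ} (hx : |x| ≤ c / 2 ^ n)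
    (hc : c ≤ B) (h : m ≤ n) : |x| ≤ B / 2 ^ m :=
  hx.trans ((div_le_div_of_nonneg_right hc (by positivity)).trans
    (div_le_div_of_nonneg_left hB (by positivity) (pow_le_pow_right₀ (by norm_num) h)))

/-- The levels of the frames. -/
theorem levels {J V H : ℕ} {v₀ R e η rot th' : ℝ} (hη : η ≤ e) (hJ : 1 ≤ e * J)
    (v0 : 0 ≤ v₀) (vR : v₀ ≤ R) (hr : v₀ - e ≤ rot) (ht : R - e ≤ th')
    (vu : (V : ℝ) ≤ max 0 ((v₀ - 10 * e) * J)) (hu : (H : ℝ) ≤ max 0 ((R - v₀ - 10 * e) * J)) :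
    (V : ℝ) ≤ max 0 ((rot - η) * J - 1) ∧ ((V + H : ℕ) : ℝ) ≤ max 0 ((th' - η) * J - 2) := by
  have hJ0 : (0 : ℝ) ≤ J := Nat.cast_nonneg J
  have k1 : (v₀ - e) * J ≤ rot * J := mul_le_mul_of_nonneg_right hr hJ0
  have k2 : (R - e) * J ≤ th' * J := mul_le_mul_of_nonneg_right ht hJ0
  have k3 : η * J ≤ e * J := mul_le_mul_of_nonneg_right hη hJ0
  have k4 : v₀ * J ≤ R * J := mul_le_mul_of_nonneg_right vR hJ0
  have k5 : 0 ≤ v₀ * J := mul_nonneg v0 hJ0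
  constructor
  · rcases le_total ((v₀ - 10 * e) * J) 0 with h | h
    · rw [max_eq_left h] at vu
      exact vu.trans (le_max_left _ _)
    · rw [max_eq_right h] at vu
      refine le_trans ?_ (le_max_right _ _)
      linarith
  · push_cast
    rcases le_total ((v₀ - 10 * e) * J) 0 with h | h
    · rw [max_eq_left h] at vu
      rcases le_total ((R - v₀ - 10 * e) * J) 0 with h' | h'
      · rw [max_eq_left h'] at hu
        exact le_trans (by linarith) (le_max_left _ _)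
      · rw [max_eq_right h'] at hu
        refine le_trans ?_ (le_max_right _ _)
        linarith
    · rw [max_eq_right h] at vu
      refine le_trans ?_ (le_max_right _ _)
      rcases le_total ((R - v₀ - 10 * e) * J) 0 with h' | h'
      · rw [max_eq_left h'] at hu
        linarith
      · rw [max_eq_right h'] at hu
        linarith

variable {S : PCl 3} {a R h₁ : ℝ} {i₀ : Fin 3} {c s₂ : ℝ} {r : ℝ → ℝ} {D : Set ℝ} {σ : ℝ → Row}
  {act rc : ℚ → ℝ} {K : Set ℝ} {W : ℝ → ℝ} {v₁ t : ℚ} {e₁ Q₀ P g v₀ a₀ α pe L e G : ℝ}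

/-- **The frames of the double plateau**, in the case of a positive room `g - W g`, with the
natural label of the window `u₀` whose frame they are. -/
theorem dfr_pos (hC : Cs S a R h₁ i₀ c s₂ r D σ)
    (hL : Loc S i₀ c s₂ r D σ act K W v₁ t e₁ Q₀ P g v₀ 0 0 a₀ α)
    (hZ : Zod σ act rc v₁ t e₁ P g (W g) v₀ a₀ α pe L e G) (hRe : e < g - W g) (u₀ : ℚ)
    (hu1 : W g - L / 4 ≤ u₀) (hu2 : (u₀ : ℝ) ≤ W g) :
    ∃ η₀ : ℝ, 0 < η₀ ∧ ∀ η : ℝ, 0 < η → η ≤ η₀ → ∀ (N M : ℕ) (x : ℝ), Clp S (fun J F A =>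
      ∀ w₀ q V H X : ℕ, DLv J N M P g (W g) v₀ x L e u₀ w₀ q V H X →
      ∃ (sg : Fin 3 → Fin 3) (a s t : F.Ω → ℝ) (al nu kk bb : (Fin 3 → ℤ) × (ℕ × F.ζ) → ℝ),
        sg 0 = i₀ ∧ DFr F A sg ⌊(u₀ : ℝ) * J⌋₊ V H ⌊(pe + G / 2) * J⌋₊
          ⌊(P - W g + G / 2) * J⌋₊ a s t al nu kk bb ∧
        ∃ (z : F.Ω → Pln) (E : ℝ), NL F A sg ⌊(u₀ : ℝ) * J⌋₊ ⌊((σ 1).rot u₀ - η) * J⌋₊
            ⌊((σ 1).th u₀ - η) * J⌋₊ z ∧
          (∀ ω ω', A ω → A ω' → z ω = z ω' → a ω = a ω' ∧ s ω = s ω' ∧ t ω = t ω') ∧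
          (∀ ω, A ω → |a ω| ≤ 8 ∧ |s ω| ≤ 8 ∧ |t ω| ≤ 8) ∧ 1 ≤ E ∧ Real.log E ≤ η * J ∧
          Fcl F A u₀ ((u₀ : ℝ) + (σ 1).rot u₀) ((σ 1).th u₀) E z a s t) := by
  have he0 := hZ.e0
  have heL := hZ.eL
  have hLG := hZ.LG
  have hv0 := hZ.v0
  have hvR := hZ.vR
  have hg0 := hZ.g0
  have hg1 := hZ.g1
  have hg2 := hZ.g2
  have hg3 := hZ.g3
  have hg5 := hZ.g5
  have hg6 := hZ.g6
  have hg7 := hZ.g7
  have hg8 := hZ.g8
  have hg9 := hZ.g9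
  have hL0 : 0 < L := by linarith
  have hG0 : 0 < G := by linarith
  have hab : |(u₀ : ℝ) - W g| ≤ L := by
    rw [abs_le]
    constructor <;> linarith
  obtain ⟨k1, k2, -⟩ := hZ.aff u₀ hab
  rw [abs_le] at k1 k2
  have hR := hC.row 1 one_pos le_rfl hC.D1
  have hu0r : (0 : ℝ) ≤ u₀ := by linarith
  have hu0 : 0 ≤ u₀ := by exact_mod_cast hu0r
  have huv : u₀ ≤ v₁ := by
    have : (u₀ : ℝ) ≤ v₁ := by linarith
    exact_mod_cast this
  have hvr : (v₁ : ℝ) < 1 := by exact_mod_cast hL.adm.v1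
  have hth1 : (σ 1).th u₀ < 1 := by linarith [k2.2]
  have htr := trv hC le_rfl hR u₀ hu0 (by linarith)
  have hrt : (u₀ : ℝ) + (σ 1).rot u₀ ≤ (σ 1).th u₀ := by
    rcases min_le_iff.1 htr with h | h
    · exact h
    · linarith
  have hrm : g - W g - e ≤ (σ 1).th u₀ - u₀ := by linarith [k2.1]
  refine ⟨min e ((g - W g - e) / 2), lt_min he0 (by linarith), ?_⟩
  intro η hη hηη N M x
  have hη1 : η ≤ e := hηη.trans (min_le_left _ _)
  have hη2 : η ≤ (g - W g - e) / 2 := hηη.trans (min_le_right _ _)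
  have key := frn_cls hC hL.adm u₀ ((σ 1).rot u₀ - η) ((σ 1).th u₀ - η) (P - W g + G / 2)
    (g := pe + G / 2) hu0 huv (by linarith) (by linarith) (by linarith) (by linarith)
    (by linarith) (by linarith) (by linarith) (by linarith [hL.adm.e0])
  obtain ⟨J₁, hJ₁⟩ := exists_nat_gt (1 / e)
  refine Clp.mono (J₂ := J₁) key ?_
  rintro J hJ F A ⟨sg, z, hsg, hNL, al, nu, kk, bb, hF⟩ w₀ q V H X hD
  have hJr : 1 / e < J := hJ₁.trans_le (by exact_mod_cast hJ)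
  rw [div_lt_iff₀ he0] at hJr
  have hJ0 : (0 : ℝ) ≤ J := Nat.cast_nonneg J
  have hlv := levels (J := J) (V := V) (H := H) (v₀ := v₀) (R := g - W g) (e := e) (η := η)
    (rot := (σ 1).rot u₀) (th' := (σ 1).th u₀ - u₀) hη1 (by linarith) hv0 hvR
    (by linarith [k1.1]) hrm hD.vu hD.hu
  obtain ⟨l1, l2⟩ := hlv
  have hV : V ≤ ⌊((σ 1).rot u₀ - η) * J⌋₊ ∨ V = 0 := by
    rcases le_total (((σ 1).rot u₀ - η) * J - 1) 0 with h | h
    · right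
      rw [max_eq_left h] at l1
      have : (V : ℝ) = 0 := le_antisymm l1 (Nat.cast_nonneg _)
      exact_mod_cast this
    · left
      rw [max_eq_right h] at l1
      exact Nat.le_floor (by linarith)
  have hVH : V + H ≤ ⌊((σ 1).th u₀ - η) * J⌋₊ - ⌊(u₀ : ℝ) * J⌋₊ := by
    have hfl := Nat.floor_le (show 0 ≤ (u₀ : ℝ) * J by positivity)
    rcases le_total (((σ 1).th u₀ - u₀ - η) * J - 2) 0 with h | h
    · rw [max_eq_left h] at l2
      have : ((V + H : ℕ) : ℝ) = 0 := le_antisymm l2 (Nat.cast_nonneg _)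
      have h0 : V + H = 0 := by exact_mod_cast this
      omega
    · rw [max_eq_right h] at l2
      have h1 : V + H + ⌊(u₀ : ℝ) * J⌋₊ ≤ ⌊((σ 1).th u₀ - η) * J⌋₊ := by
        refine Nat.le_floor ?_
        push_cast at l2 ⊢
        linarith
      omega
  refine ⟨sg, fra z, frs z, frt z, al, nu, kk, bb, hsg, ⟨hF.bij, hF.det, hF.vdt, ?_, ?_, ?_, ?_,
    ?_, ?_, ?_⟩, z, 1, hNL, ?_, ?_, le_rfl, ?_, ?_⟩
  · intro ω hω
    obtain ⟨h1, h2, h3⟩ := hF.bd ω hω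
    exact ⟨by linarith, h2, by linarith⟩
  · exact fun ω hω => le_div_pow (by norm_num) (hF.on1 ω hω) (by norm_num) le_rfl
  · exact fun ω hω => le_div_pow (by norm_num) (hF.on2 ω hω) (by norm_num) le_rfl
  · intro ω hω
    rcases hV with h | h
    · exact le_div_pow (by norm_num) (hF.an1 ω hω) (by norm_num) h
    · rw [h]
      exact le_div_pow (by norm_num) (hF.an1 ω hω) (by norm_num) (Nat.zero_le _)
  · exact fun ω hω => le_div_pow (by norm_num) (hF.an2 ω hω) (by norm_num) hVH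
  · intro ω hω
    obtain ⟨h1, h2⟩ := hF.be ω hω
    exact ⟨by linarith, by linarith⟩
  · obtain ⟨nN, h1⟩ := hF.on3
    exact ⟨nN, fun ω hω => le_div_pow (by norm_num) (h1 ω hω) (by norm_num) le_rfl⟩
  · intro ω ω' _ _ hz
    unfold fra frs frt
    rw [hz]
    exact ⟨rfl, rfl, rfl⟩
  · intro ω hω
    obtain ⟨h1, h2, h3⟩ := hF.bd ω hω
    exact ⟨by linarith, by linarith, by linarith⟩
  · rw [Real.log_one]
    positivity
  · intro ω _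
    refine ⟨?_, ?_, ?_⟩
    · rw [sub_self, abs_zero]
      positivity
    · rw [sub_self, abs_zero]
      positivity
    · rw [sub_self, sub_self, zero_mul, add_zero, abs_zero]
      positivity

end Pool.DPC20
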